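import Pool.Agent.helper97.IRO.Spec

set_option autoImplicit false

/-! # Row iro:CT9: powers of cofinal elements are cofinal -/

open MeasureTheory Pool.Agent.LOF

namespace Pool.Agent.IRO

lemma CT9_mono {G : Type} [Group G] {P : G → Prop} (hP : Cone P) {g h : G} (hg : P g) {k l : ℤ}
    (hk : P (h⁻¹ * g ^ k)) (hkl : k ≤ l) : P (h⁻¹ * g ^ l) := by
  rcases hkl.eq_or_lt with h1 | h1
  · rwa [← h1]
  · obtain ⟨m, hm⟩ := Int.eq_ofNat_of_zero_le (sub_nonneg.2 hkl)
    have hm0 : 0 < m := by omega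
    have h2 := hP.mul _ _ hk (hP.pow hg hm0)
    have h3 : h⁻¹ * g ^ k * g ^ m = h⁻¹ * g ^ l := by
      rw [mul_assoc, ← zpow_natCast g m, ← zpow_add, ← hm]
      congr 2
      ring
    rwa [h3] at h2

theorem CT9 : CT9_stmt := by
  intro G _ P hP H g n hg hn
  have hgH : g ∈ H := hg.1
  refine ⟨H.zpow_mem hgH n, fun h hh => ?_⟩
  obtain ⟨k, hk⟩ := hg.2 h hh
  have hn1 : 1 ≤ |n| := Int.one_le_abs hn
  have hk0 : 0 ≤ |k| := abs_nonneg k
  have hmul : |k| ≤ |n| * |k| := by nlinarith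
  rcases hP.tri' g with h1 | h1 | h1
  · -- g positive
    refine ⟨n.sign * |k|, ?_⟩
    rw [← zpow_mul, ← mul_assoc, Int.mul_sign_self]
    apply CT9_mono hP h1 hk
    have : ((n.natAbs : ℤ)) = |n| := Int.natCast_natAbs n
    rw [this]
    exact (le_abs_self k).trans hmul
  · exact absurd h1 (hg.ne_one hP)
  · refine ⟨-(n.sign * |k|), ?_⟩
    have h2 : g ^ k = g⁻¹ ^ (-k) := by rw [inv_zpow', neg_neg]
    rw [h2] at hk
    have h3 : (g ^ n) ^ (-(n.sign * |k|)) = g⁻¹ ^ (n * n.sign * |k|) := by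
      rw [← zpow_mul, inv_zpow']
      congr 1
      ring
    rw [h3, Int.mul_sign_self]
    apply CT9_mono hP h1 hk
    have : ((n.natAbs : ℤ)) = |n| := Int.natCast_natAbs n
    rw [this]
    exact (neg_le_abs k).trans hmul

end Pool.Agent.IRO
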